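import Pool.Agent.Work.MP_dcf6a6_c1.Interface

/-! # Block INTG (MP_dcf6a6_ag): binary forms without common zero, finiteness. Written by helper4. -/

set_option autoImplicit false

namespace Pool.C1.helper4

open MvPolynomial

/-- homogeneous components of a multiple of a form -/
theorem INTG_comp {U : MvPolynomial (Fin 2) ℂ} (f : MvPolynomial (Fin 2) ℂ) {e : ℕ} (n : ℕ)
    (hU : U.IsHomogeneous e) :
    homogeneousComponent n (U * f) = if e ≤ n then U * homogeneousComponent (n - e) f else 0 := by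
  have h1 : ∀ i, (U * homogeneousComponent i f).IsHomogeneous (e + i) := fun i =>
    hU.mul (homogeneousComponent_isHomogeneous i f)
  have h2 : homogeneousComponent n (U * f) =
      ∑ i ∈ Finset.range (f.totalDegree + 1),
        homogeneousComponent n (U * homogeneousComponent i f) := by
    conv_lhs => rw [← sum_homogeneousComponent f, Finset.mul_sum, map_sum]
  rw [h2]
  by_cases hn : e ≤ n
  · rw [if_pos hn]
    by_cases hd : n - e ≤ f.totalDegree
    · rw [Finset.sum_eq_single (n - e)]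
      · rw [homogeneousComponent_of_mem (h1 _), if_pos (by omega)]
      · intro i _ hi
        rw [homogeneousComponent_of_mem (h1 i), if_neg (by omega)]
      · intro h
        exact absurd (Finset.mem_range.2 (by omega)) h
    · rw [homogeneousComponent_eq_zero (n - e) f (by omega), mul_zero]
      refine Finset.sum_eq_zero fun i hi => ?_
      rw [Finset.mem_range] at hi
      rw [homogeneousComponent_of_mem (h1 i), if_neg (by omega)]
  · rw [if_neg hn]
    refine Finset.sum_eq_zero fun i _ => ?_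
    rw [homogeneousComponent_of_mem (h1 i), if_neg (by omega)]

theorem INTG_monomial (s : Fin 2 →₀ ℕ) (c : ℂ) :
    (monomial s c : MvPolynomial (Fin 2) ℂ) = C c * (X 0 ^ s 0 * X 1 ^ s 1) := by
  rw [monomial_eq, Finsupp.prod_fintype]
  · rw [Fin.prod_univ_two]
  · intro i; simp

theorem INTG_fin (A : Type) [CommRing A] [Algebra A (MvPolynomial (Fin 2) ℂ)]
    (U : Fin 2 → MvPolynomial (Fin 2) ℂ) (e : Fin 2 → ℕ) (he : ∀ i, 0 < e i)
    (hU : ∀ i, (U i).IsHomogeneous (e i)) (k : ℕ)
    (hk : ∀ i : Fin 2, (X i : MvPolynomial (Fin 2) ℂ) ^ k ∈ Ideal.span {U 0, U 1})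
    (hC : ∀ c : ℂ, ∃ a : A, algebraMap A (MvPolynomial (Fin 2) ℂ) a = C c)
    (hUA : ∀ i, ∃ a : A, algebraMap A (MvPolynomial (Fin 2) ℂ) a = U i) :
    Module.Finite A (MvPolynomial (Fin 2) ℂ) := by
  let M : Submodule A (MvPolynomial (Fin 2) ℂ) := Submodule.span A
    (Set.range (fun s : Fin k × Fin k =>
      (X 0 ^ (s.1 : ℕ) * X 1 ^ (s.2 : ℕ) : MvPolynomial (Fin 2) ℂ)))
  have hmul : ∀ (i : Fin 2) (f : MvPolynomial (Fin 2) ℂ), f ∈ M → U i * f ∈ M := by
    intro i f hf
    obtain ⟨a, ha⟩ := hUA i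
    rw [← ha, ← Algebra.smul_def]
    exact M.smul_mem a hf
  have hCm : ∀ (c : ℂ) (f : MvPolynomial (Fin 2) ℂ), f ∈ M → C c * f ∈ M := by
    intro c f hf
    obtain ⟨a, ha⟩ := hC c
    rw [← ha, ← Algebra.smul_def]
    exact M.smul_mem a hf
  have key : ∀ n : ℕ, ∀ f : MvPolynomial (Fin 2) ℂ, f.IsHomogeneous n → f ∈ M := by
    intro n
    induction n using Nat.strong_induction_on with
    | _ n ih =>
    intro f hf
    rw [f.as_sum]
    refine M.sum_mem fun s hs => ?_
    have hsd : s.degree = n := by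
      have := hf (mem_support_iff.1 hs)
      rwa [Finsupp.degree_eq_weight_one]
    rw [INTG_monomial]
    refine hCm _ _ ?_
    by_cases h01 : s 0 < k ∧ s 1 < k
    · exact Submodule.subset_span ⟨(⟨s 0, h01.1⟩, ⟨s 1, h01.2⟩), rfl⟩
    · have hI : (X 0 ^ s 0 * X 1 ^ s 1 : MvPolynomial (Fin 2) ℂ) ∈ Ideal.span {U 0, U 1} := by
        by_cases h0 : s 0 < k
        · have h1 : k ≤ s 1 := by
            by_contra h; exact h01 ⟨h0, by omega⟩
          refine Ideal.mul_mem_left _ _ ?_
          obtain ⟨t, ht⟩ := Nat.exists_eq_add_of_le h1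
          rw [ht, pow_add]
          exact Ideal.mul_mem_right _ _ (hk 1)
        · refine Ideal.mul_mem_right _ _ ?_
          obtain ⟨t, ht⟩ := Nat.exists_eq_add_of_le (not_lt.1 h0)
          rw [ht, pow_add]
          exact Ideal.mul_mem_right _ _ (hk 0)
      rw [Ideal.mem_span_pair] at hI
      obtain ⟨u, v, huv⟩ := hI
      have hmono : (X 0 ^ s 0 * X 1 ^ s 1 : MvPolynomial (Fin 2) ℂ).IsHomogeneous n := by
        have h3 : (monomial s (1 : ℂ)).IsHomogeneous n := isHomogeneous_monomial 1 hsd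
        rwa [INTG_monomial, C_1, one_mul] at h3
      have h4 : (X 0 ^ s 0 * X 1 ^ s 1 : MvPolynomial (Fin 2) ℂ) =
          homogeneousComponent n (U 0 * u) + homogeneousComponent n (U 1 * v) := by
        rw [← map_add, mul_comm (U 0) u, mul_comm (U 1) v, huv,
          homogeneousComponent_of_mem hmono, if_pos rfl]
      rw [h4, INTG_comp u n (hU 0), INTG_comp v n (hU 1)]
      refine M.add_mem ?_ ?_
      · by_cases h5 : e 0 ≤ n
        · rw [if_pos h5]
          exact hmul 0 _ (ih (n - e 0) (by have := he 0; omega) _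
            (homogeneousComponent_isHomogeneous _ _))
        · rw [if_neg h5]; exact M.zero_mem
      · by_cases h5 : e 1 ≤ n
        · rw [if_pos h5]
          exact hmul 1 _ (ih (n - e 1) (by have := he 1; omega) _
            (homogeneousComponent_isHomogeneous _ _))
        · rw [if_neg h5]; exact M.zero_mem
  refine ⟨?_⟩
  have htop : M = ⊤ := by
    rw [eq_top_iff]
    intro f _
    rw [← sum_homogeneousComponent f]
    exact M.sum_mem fun i _ => key i _ (homogeneousComponent_isHomogeneous _ _)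
  rw [← htop]
  exact Submodule.fg_span (Set.finite_range _)

theorem INTG_null (U : Fin 2 → MvPolynomial (Fin 2) ℂ)
    (h : ∀ p : Fin 2 → ℂ, eval p (U 0) = 0 → eval p (U 1) = 0 → p = 0) :
    ∃ k : ℕ, ∀ i : Fin 2, (X i : MvPolynomial (Fin 2) ℂ) ^ k ∈ Ideal.span {U 0, U 1} := by
  have h1 : ∀ i : Fin 2, (X i : MvPolynomial (Fin 2) ℂ) ∈ (Ideal.span {U 0, U 1}).radical := by
    intro i
    rw [← vanishingIdeal_zeroLocus_eq_radical (K := ℂ)]
    rw [mem_vanishingIdeal_iff]
    intro p hp
    rw [mem_zeroLocus_iff] at hp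
    have h2 : p = 0 := by
      refine h p ?_ ?_
      · exact hp (U 0) (Ideal.subset_span (by simp))
      · exact hp (U 1) (Ideal.subset_span (by simp))
    rw [h2]
    simp
  choose k hk using fun i => (h1 i)
  refine ⟨k 0 + k 1, fun i => ?_⟩
  fin_cases i
  · exact Ideal.pow_mem_of_pow_mem _ (hk 0) (Nat.le_add_right _ _)
  · exact Ideal.pow_mem_of_pow_mem _ (hk 1) (Nat.le_add_left _ _)

theorem stmt_INTG : Stmt_INTG := by
  intro U e he hU h
  obtain ⟨k, hk⟩ := INTG_null U h
  refine RingHom.Finite.to_isIntegral ?_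
  exact @INTG_fin (MvPolynomial (Fin 2) ℂ) _
    (aeval U : MvPolynomial (Fin 2) ℂ →ₐ[ℂ] MvPolynomial (Fin 2) ℂ).toRingHom.toAlgebra
    U e he hU k hk (fun c => ⟨C c, by
      change aeval U (C c) = C c
      simp⟩) (fun i => ⟨X i, by
      change aeval U (X i) = U i
      simp⟩)

end Pool.C1.helper4
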